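import Pool.Agent.PVD.StmtsM1

/-! MP_e25c73_gt, frozen negation S14126, block M1, row N_ONE (helper10): one dimensional
exponential integrals. -/

set_option autoImplicit false

open MeasureTheory Filter Topology

namespace Pool.Agent.PVD.M.H10

open Pool.Agent.PVD.M

theorem mom_on (r : ℝ) (hr : 0 < r) (k : ℕ) :
    IntegrableOn (fun x : ℝ => x ^ k * Real.exp (-(r * x))) (Set.Ici 0) := by
  rw [integrableOn_Ici_iff_integrableOn_Ioi]
  have h := integrableOn_rpow_mul_exp_neg_mul_rpow (p := 1) (s := (k : ℝ)) (b := r)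
    (by have : (0 : ℝ) ≤ k := Nat.cast_nonneg k
        linarith) one_pos hr
  refine h.congr_fun ?_ measurableSet_Ioi
  intro x _
  simp only [Real.rpow_natCast, Real.rpow_one, neg_mul]

theorem mom_val (r : ℝ) (hr : 0 < r) (k : ℕ) :
    ∫ x in Set.Ici (0 : ℝ), x ^ k * Real.exp (-(r * x)) = (Nat.factorial k : ℝ) * r⁻¹ ^ (k + 1) := by
  rw [integral_Ici_eq_integral_Ioi]
  have h := Real.integral_rpow_mul_exp_neg_mul_Ioi (a := (k : ℝ) + 1) (r := r)
    (by have : (0 : ℝ) ≤ k := Nat.cast_nonneg k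
        linarith) hr
  have h2 : ∫ x in Set.Ioi (0 : ℝ), x ^ k * Real.exp (-(r * x)) =
      ∫ t in Set.Ioi (0 : ℝ), t ^ ((k : ℝ) + 1 - 1) * Real.exp (-(r * t)) := by
    refine setIntegral_congr_fun measurableSet_Ioi ?_
    intro x _
    simp only [add_sub_cancel_right, Real.rpow_natCast]
  rw [h2, h, Real.Gamma_nat_eq_factorial]
  have h3 : ((k : ℝ) + 1) = ((k + 1 : ℕ) : ℝ) := by push_cast; ring
  rw [h3, Real.rpow_natCast]
  rw [one_div, mul_comm]

theorem n_one : OneStmt := by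
  intro r hr
  have i0 := mom_on r hr 0
  have i1 := mom_on r hr 1
  have i2 := mom_on r hr 2
  have v0 := mom_val r hr 0
  have v1 := mom_val r hr 1
  have v2 := mom_val r hr 2
  have hr0 : r ≠ 0 := hr.ne'
  have e0 : (fun x : ℝ => Real.exp (-(r * x))) = fun x : ℝ => x ^ 0 * Real.exp (-(r * x)) := by
    funext x; ring
  have e1 : (fun x : ℝ => (x - r⁻¹) * Real.exp (-(r * x))) =
      fun x : ℝ => x ^ 1 * Real.exp (-(r * x)) - r⁻¹ * (x ^ 0 * Real.exp (-(r * x))) := by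
    funext x; ring
  have e2 : (fun x : ℝ => (x - r⁻¹) ^ 2 * Real.exp (-(r * x))) =
      fun x : ℝ => (x ^ 2 * Real.exp (-(r * x)) - (2 * r⁻¹) * (x ^ 1 * Real.exp (-(r * x)))) +
        r⁻¹ ^ 2 * (x ^ 0 * Real.exp (-(r * x))) := by
    funext x; ring
  have key : ∀ f : ℝ → ℝ, IntegrableOn f (Set.Ici 0) →
      Integrable (fun x : ℝ => (Set.Ici (0 : ℝ)).indicator f x) ∧
      ∫ x : ℝ, (Set.Ici (0 : ℝ)).indicator f x = ∫ x in Set.Ici (0 : ℝ), f x := by
    intro f hf
    exact ⟨(integrable_indicator_iff measurableSet_Ici).2 hf, integral_indicator measurableSet_Ici⟩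
  refine ⟨?_, ?_, ?_⟩
  · have hi : IntegrableOn (fun x : ℝ => Real.exp (-(r * x))) (Set.Ici 0) := by
      rw [e0]; exact i0
    obtain ⟨ka, kb⟩ := key _ hi
    refine ⟨ka, ?_⟩
    rw [kb, e0, v0]
    simp
  · have hi : IntegrableOn (fun x : ℝ => (x - r⁻¹) * Real.exp (-(r * x))) (Set.Ici 0) := by
      rw [e1]; exact i1.sub (i0.const_mul _)
    obtain ⟨ka, kb⟩ := key _ hi
    refine ⟨ka, ?_⟩
    rw [kb, e1]
    rw [integral_sub i1 (i0.const_mul _), integral_const_mul, v0, v1]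
    simp
    ring
  · have hi : IntegrableOn (fun x : ℝ => (x - r⁻¹) ^ 2 * Real.exp (-(r * x))) (Set.Ici 0) := by
      rw [e2]; exact (i2.sub (i1.const_mul _)).add (i0.const_mul _)
    obtain ⟨ka, kb⟩ := key _ hi
    refine ⟨ka, ?_⟩
    rw [kb, e2]
    have j1 : IntegrableOn (fun x : ℝ => x ^ 2 * Real.exp (-(r * x)) -
        (2 * r⁻¹) * (x ^ 1 * Real.exp (-(r * x)))) (Set.Ici 0) := i2.sub (i1.const_mul _)
    rw [integral_add j1 (i0.const_mul _),
      integral_sub i2 (i1.const_mul _), integral_const_mul, integral_const_mul, v0, v1, v2]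
    simp
    ring

end Pool.Agent.PVD.M.H10
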