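import Pool.Agent.PVD.StmtsL

/-!
Squad PVD, block L, row WBD: bounds of `h`, `c`, `a`, `J`, `w`.
-/

set_option autoImplicit false

open MeasureTheory

namespace Pool.Agent.PVD.L.H10

open Pool.Agent.PVD.L

/-- an integral over `[0,1]` of a function with values in `[0,1]` -/
theorem int_unit {g : ℝ → ℝ} (h0 : ∀ t, 0 ≤ t → t ≤ 1 → 0 ≤ g t)
    (h1 : ∀ t, 0 ≤ t → t ≤ 1 → g t ≤ 1) :
    0 ≤ ∫ t in (0:ℝ)..1, g t ∧ ∫ t in (0:ℝ)..1, g t ≤ 1 := by
  constructor
  · exact intervalIntegral.integral_nonneg zero_le_one (fun t ht => h0 t ht.1 ht.2)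
  · have h2 : ‖∫ t in (0:ℝ)..1, g t‖ ≤ 1 * |(1:ℝ) - 0| := by
      refine intervalIntegral.norm_integral_le_of_norm_le_const (fun t ht => ?_)
      rw [Set.uIoc_of_le zero_le_one] at ht
      rw [Real.norm_eq_abs, abs_of_nonneg (h0 t ht.1.le ht.2)]
      exact h1 t ht.1.le ht.2
    rw [sub_zero, abs_one, mul_one] at h2
    exact (le_abs_self _).trans h2

/-- WBD -/
theorem wbd : WbdStmt := by
  intro e y h0 h1 hy hy1
  have he1 : e < 1 := by linarith
  have hy0 : 0 < y := by linarith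
  have hA := bas_adm h0 h1 hy hy1
  have hc0 : ∀ i t, 0 ≤ t → t ≤ 1 → 0 ≤ cl e i t / fm e (bas e y) t := fun i t ht0 ht1 =>
    div_nonneg (cl_nonneg h0 he1 ht0 ht1 i) (ht0.trans (hA.lo t ht0 ht1))
  have hc1 : ∀ i, i ≠ 0 → ∀ t, 0 ≤ t → t ≤ 1 → cl e i t / fm e (bas e y) t ≤ 1 :=
    fun i hi t ht0 ht1 => div_le_one_of_le₀ ((cl_le h0 he1 ht0 i hi).trans (hA.lo t ht0 ht1))
      (ht0.trans (hA.lo t ht0 ht1))
  have hB : ∀ i, i ≠ 0 → 0 ≤ Hm e (bas e y) i ∧ Hm e (bas e y) i ≤ 1 := fun i hi =>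
    int_unit (hc0 i) (hc1 i hi)
  obtain ⟨hc_0, hc_1⟩ := hB 3 (by decide)
  obtain ⟨ha_0, ha_1⟩ := hB 1 (by decide)
  obtain ⟨-, hh_1⟩ := hB 2 (by decide)
  -- the lower bound for `h`
  have hh_0 : e ^ 2 / 2 ≤ hh e y := by
    have hpt : Set.EqOn (fun _ : ℝ => (1 - e) * e / y) (fun t => cl e 2 t / fm e (bas e y) t)
        (Set.uIoc 0 e) := by
      intro t ht
      rw [Set.uIoc_of_le h0.le] at ht
      show (1 - e) * e / y = cl e 2 t / fm e (bas e y) t
      rw [bas_near h0 he1 ht.2, cl_two, min_eq_left ht.2]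
      have ht0 := ht.1
      field_simp
    have hi1 : IntervalIntegrable (fun t => cl e 2 t / fm e (bas e y) t) volume 0 e :=
      (intervalIntegrable_const (μ := volume) (a := 0) (b := e) (c := (1 - e) * e / y)).congr hpt
    have hi2 : IntervalIntegrable (fun t => cl e 2 t / fm e (bas e y) t) volume e 1 := by
      refine ContinuousOn.intervalIntegrable ?_
      rw [Set.uIcc_of_le he1.le]
      refine (cl_cont e 2).continuousOn.div (fm_cont e _).continuousOn (fun t ht => ?_)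
      have := hA.lo t (h0.le.trans ht.1) ht.2
      have h2 := ht.1
      linarith
    have h3 : hh e y = (∫ t in (0:ℝ)..e, cl e 2 t / fm e (bas e y) t) +
        ∫ t in e..(1:ℝ), cl e 2 t / fm e (bas e y) t :=
      (intervalIntegral.integral_add_adjacent_intervals hi1 hi2).symm
    have h4 : 0 ≤ ∫ t in e..(1:ℝ), cl e 2 t / fm e (bas e y) t :=
      intervalIntegral.integral_nonneg he1.le (fun t ht => hc0 2 t (h0.le.trans ht.1) ht.2)
    have h5 : (∫ t in (0:ℝ)..e, cl e 2 t / fm e (bas e y) t) = e * ((1 - e) * e / y) := by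
      have h6 : (∫ t in (0:ℝ)..e, cl e 2 t / fm e (bas e y) t) =
          ∫ _t in (0:ℝ)..e, (1 - e) * e / y := by
        refine intervalIntegral.integral_congr_ae (Filter.Eventually.of_forall fun t ht => ?_)
        exact (hpt ht).symm
      rw [h6, intervalIntegral.integral_const, smul_eq_mul, sub_zero]
    have h7 : e ^ 2 / 2 ≤ e * ((1 - e) * e / y) := by
      rw [mul_div_assoc', le_div_iff₀ hy0]
      have h8 : 0 < e ^ 2 := by positivity
      nlinarith
    rw [h3, h5]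
    linarith
  have hhp : 0 < hh e y := lt_of_lt_of_le (by positivity) hh_0
  have hs : 0 < hh e y + cc e y := by
    have : 0 ≤ cc e y := hc_0
    linarith
  have hs2 : hh e y + cc e y ≤ 2 := by
    have h2 : cc e y ≤ 1 := hc_1
    have h3 : hh e y ≤ 1 := hh_1
    linarith
  refine ⟨hh_0, hh_1, hc_0, hc_1, ha_0, ha_1, ?_, ?_, ?_, ?_⟩
  · -- `J`
    have h2 : ‖∫ t in (0:ℝ)..1, t * (cl e 3 t - cl e 2 t) / (fm e (bas e y) t) ^ 2‖ ≤
        1 * |(1:ℝ) - 0| := by
      refine intervalIntegral.norm_integral_le_of_norm_le_const (fun t ht => ?_)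
      rw [Set.uIoc_of_le zero_le_one] at ht
      have hf := hA.lo t ht.1.le ht.2
      have hfp : 0 < fm e (bas e y) t := lt_of_lt_of_le ht.1 hf
      have h3 := cl_nonneg h0 he1 ht.1.le ht.2 3
      have h4 := cl_nonneg h0 he1 ht.1.le ht.2 2
      have h5 := cl_le h0 he1 ht.1.le 3 (by decide)
      have h6 := cl_le h0 he1 ht.1.le 2 (by decide)
      have h7 : |cl e 3 t - cl e 2 t| ≤ t := abs_le.2 ⟨by linarith, by linarith⟩
      rw [Real.norm_eq_abs, abs_div, abs_mul, abs_of_pos ht.1, abs_of_pos (pow_pos hfp 2)]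
      refine div_le_one_of_le₀ ?_ (pow_pos hfp 2).le
      calc t * |cl e 3 t - cl e 2 t| ≤ t * t := mul_le_mul_of_nonneg_left h7 ht.1.le
        _ ≤ fm e (bas e y) t * fm e (bas e y) t := mul_le_mul hf hf ht.1.le hfp.le
        _ = fm e (bas e y) t ^ 2 := (pow_two _).symm
    rw [sub_zero, abs_one, mul_one] at h2
    exact h2
  · rw [ww, div_le_div_iff₀ two_pos (mul_pos hy0 hs)]
    have h2 : y * (hh e y + cc e y) ≤ 1 * 2 := mul_le_mul hy1 hs2 hs.le zero_le_one
    nlinarith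
  · rw [ww, div_le_div_iff₀ (mul_pos hy0 hs) h0]
    have h2 : e ^ 2 / 2 ≤ hh e y + cc e y := by
      have : 0 ≤ cc e y := hc_0
      linarith
    have h3 : 1 / 64 * (e ^ 2 / 2) ≤ y * (hh e y + cc e y) :=
      mul_le_mul hy h2 (by positivity) hy0.le
    nlinarith
  · rw [ww]
    field_simp

end Pool.Agent.PVD.L.H10
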